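import Pool.Agent.helper62.QU.Spec

/-!
# QU, row EQV: the convolution of an equivariant function
-/

set_option autoImplicit false

open scoped MatrixGroups ContDiff Topology UpperHalfPlane
open UpperHalfPlane MeasureTheory Filter Set

namespace Pool.Agent.QU

/-- row EQV -/
theorem EQV (h1 : CVB_stmt) : EQV_stmt := by
  intro Γ V _ _ _ ρ κ φ hφ γ z
  have h2 := (h1 V).1 κ φ (γ : SL(2, ℝ)) z
  have h3 : (fun w : ℍ => φ ((γ : SL(2, ℝ)) • w)) = fun w => ρ γ (φ w) := by
    funext w
    exact hφ γ w
  rw [h3] at h2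
  have h4 : conv κ (fun w => ρ γ (φ w)) z = ρ γ (conv κ φ z) := by
    unfold conv
    have h5 := (ρ γ).toLinearIsometry.integral_comp_comm (μ := volume)
      (fun w : ℍ => κ (tt z w) • φ w)
    refine Eq.trans (integral_congr_ae (Filter.Eventually.of_forall fun w => ?_)) h5
    show κ (tt z w) • ρ γ (φ w) = ρ γ (κ (tt z w) • φ w)
    rw [← Complex.coe_smul, ← Complex.coe_smul, map_smul]
  exact h2.symm.trans h4

end Pool.Agent.QU
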